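import Pool.Agent.H27.MedGraph
import Pool.Agent.H27.MedC4

set_option autoImplicit false

namespace Pool.Agent.Results.MP_46d9e0_co.Lower

open Finset Pool.Agent.H27.Med

theorem result : ∀ (V : Type) [Fintype V] [DecidableEq V] (G : SimpleGraph V) [DecidableRel G.Adj]
    (hG : (G.adjMatrix ℝ).IsHermitian) (l : Fin (Fintype.card V)), G.maxDegree ≤ 4 →
    ((l : ℕ) + 1 = ⌊((Fintype.card V : ℝ) + 1) / 2⌋₊ ∨
      (l : ℕ) + 1 = ⌈((Fintype.card V : ℝ) + 1) / 2⌉₊) →
    -√3 ≤ hG.eigenvalues₀ l := by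
  intro V _ _ G _ hG l hd hl
  haveI : Nonempty V := Fintype.card_pos_iff.1 l.pos
  have h1 := (g3.graph G (by norm_num) hd).2
  have h2 : (l : ℕ) + 1 ≤ Fintype.card V / 2 + 1 := by
    refine le_trans (by rcases hl with h | h <;> simp [h, Nat.floor_le_ceil]) (Nat.ceil_le.2 ?_ :
      ⌈((Fintype.card V : ℝ) + 1) / 2⌉₊ ≤ _)
    have : Fintype.card V + 1 ≤ (Fintype.card V / 2 + 1) * 2 := by omega
    rw [div_le_iff₀ two_pos]
    exact_mod_cast this
  by_contra h
  rw [hG.roots_charpoly_eq_eigenvalues₀, Multiset.filter_map, Multiset.card_map,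
    ← Finset.filter_val, Finset.card_val] at h1
  refine absurd (lt_of_le_of_lt (Nat.mul_le_mul_left 2 (card_le_card (s := Ici l) fun i hi => ?_))
    h1) ?_
  · simpa using (hG.eigenvalues₀_antitone (mem_Ici.1 hi)).trans_lt (not_le.1 h)
  · rw [Fin.card_Ici]; omega

end Pool.Agent.Results.MP_46d9e0_co.Lower
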